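import Pool.Agent.Helper25.EV.Final

/-!
Eventually semidecidable singletons and the constructible hierarchy: the negative answer to Q1.
-/

set_option autoImplicit false

namespace Pool.Agent.Results.MP_f84cd7_lc.Negative

open Pool.Agent.Helper25.EV

/-- There is a real `x` such that the singleton of `x` is eventually semidecidable by an infinite
time Turing machine, but `x` is not an element of `L_α` for `α = λ^x`, the supremum of the
`x`-writable ordinals (which are bounded). -/
theorem result : ∃ x : Real2, EventuallySemidecidable {x} ∧ BddAbove {α | Writable x α} ∧
    ¬ RealIn x (Lh (lam x)) :=
  main_bdd

end Pool.Agent.Results.MP_f84cd7_lc.Negative
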